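import Mathlib

set_option autoImplicit false

/-!
# The domatic game numbers `γ_g(G, A)` and `γ_g(G, B)` differ by at most one

The proof passes through an auxiliary Maker-Breaker game `MWins` with `k` colours, in which Bob
may only delete vertices.  In this game there is no zugzwang (`no_zugzwang`), and it lies between
the domatic games with `k + 1` and with `k` colours.
-/

namespace Pool.Agent.Results.MP_d2c770_co.FirstPlayer

universe u

/-- A set `S` of vertices of `G` is dominating: every vertex is in `S` or has a neighbour in `S`. -/
def Dominating {V : Type u} (G : SimpleGraph V) (S : Set V) : Prop :=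
  ∀ v, v ∈ S ∨ ∃ w ∈ S, G.Adj v w

/-- The two players. -/
inductive Player
  | alice
  | bob

/-- `AliceWins G k n X s`: Alice has a winning strategy in the domatic game on `G` with palette
`Fin k` from the partial colouring `s` (`none` means uncoloured) when `X` is to move and `n` more
moves are played. A move gives some uncoloured vertex some colour. After the last move Alice wins
iff every colour class is dominating. -/
def AliceWins {V : Type u} [DecidableEq V] (G : SimpleGraph V) (k : ℕ) :
    ℕ → Player → (V → Option (Fin k)) → Prop
  | 0, _, s => ∀ c : Fin k, Dominating G {v | s v = some c}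
  | n + 1, .alice, s =>
      ∃ v c, s v = none ∧ AliceWins G k n .bob (Function.update s v (some c))
  | n + 1, .bob, s =>
      ∀ v c, s v = none → AliceWins G k n .alice (Function.update s v (some c))

/-- Alice has a winning strategy in the domatic game on `G` with `k` colours when `X` moves first.
The game starts with no vertex coloured and lasts `|V|` moves. -/
def WinsGame {V : Type u} [DecidableEq V] [Fintype V] (G : SimpleGraph V) (k : ℕ) (X : Player) :
    Prop :=
  AliceWins G k (Fintype.card V) X (fun _ => none)

/-- The domatic game number: the largest `k ≥ 1` for which Alice has a winning strategy. -/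
noncomputable def gammaG {V : Type u} [DecidableEq V] [Fintype V] (G : SimpleGraph V)
    (X : Player) : ℕ :=
  sSup {k | 1 ≤ k ∧ WinsGame G k X}

section
variable {V : Type u} [DecidableEq V] {G : SimpleGraph V}

/-- The auxiliary game: `none` is untouched, `some none` is deleted (by Bob), `some (some c)` has
been given colour `c` (by Alice). -/
def MWins (G : SimpleGraph V) (k : ℕ) : ℕ → Player → (V → Option (Option (Fin k))) → Prop
  | 0, _, s => ∀ c : Fin k, Dominating G {v | s v = some (some c)}
  | n + 1, .alice, s =>
      ∃ v c, s v = none ∧ MWins G k n .bob (Function.update s v (some (some c)))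
  | n + 1, .bob, s =>
      ∀ v, s v = none → MWins G k n .alice (Function.update s v (some none))

lemma mWins_zero {k : ℕ} (X : Player) (s : V → Option (Option (Fin k))) :
    MWins G k 0 X s ↔ ∀ c : Fin k, Dominating G {v | s v = some (some c)} := by
  cases X <;> rfl

lemma aliceWins_zero {k : ℕ} (X : Player) (s : V → Option (Fin k)) :
    AliceWins G k 0 X s ↔ ∀ c : Fin k, Dominating G {v | s v = some c} := by
  cases X <;> rfl

lemma Dominating.mono {S T : Set V} (h : Dominating G S) (hST : S ⊆ T) : Dominating G T := by
  intro v
  rcases h v with h | ⟨w, hw, hvw⟩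
  · exact Or.inl (hST h)
  · exact Or.inr ⟨w, hST hw, hvw⟩

/-- The number of untouched vertices. -/
noncomputable def unc [Fintype V] {α : Type*} (s : V → Option α) : ℕ :=
  Fintype.card {v // s v = none}

lemma unc_update [Fintype V] {α : Type*} (s : V → Option α) (x : V) (hx : s x = none) (a : α) :
    unc (Function.update s x (some a)) + 1 = unc s := by
  classical
  unfold unc
  rw [Fintype.card_subtype, Fintype.card_subtype]
  have : (Finset.univ.filter fun v => s v = none) =
      insert x (Finset.univ.filter fun v => Function.update s x (some a) v = none) := by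
    ext v
    simp only [Finset.mem_filter, Finset.mem_univ, true_and, Finset.mem_insert]
    by_cases h : v = x
    · subst h; simp [hx]
    · simp [h]
  rw [this, Finset.card_insert_of_notMem]
  simp

lemma exists_of_unc_pos [Fintype V] {α : Type*} (s : V → Option α) {n : ℕ} (h : unc s = n + 1) :
    ∃ x, s x = none := by
  classical
  unfold unc at h
  have : 0 < Fintype.card {v // s v = none} := by omega
  obtain ⟨x⟩ := Fintype.card_pos_iff.1 this
  exact ⟨x.1, x.2⟩

/-- terminal monotonicity: a coloured vertex is at least as good as a deleted one -/
lemma terminal_mono {k : ℕ} (s : V → Option (Option (Fin k))) (x : V) (c : Fin k)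
    (h : ∀ c : Fin k, Dominating G {v | Function.update s x (some none) v = some (some c)}) :
    ∀ c' : Fin k, Dominating G {v | Function.update s x (some (some c)) v = some (some c')} := by
  intro c'
  refine (h c').mono ?_
  intro v hv
  by_cases hvx : v = x
  · subst hvx
    simp at hv
  · simpa [hvx] using hv

/-- There is no zugzwang in the auxiliary game. -/
lemma no_zugzwang [Fintype V] {k : ℕ} (hk : 0 < k) (N : ℕ) :
    (∀ s : V → Option (Option (Fin k)), unc s = N → MWins G k N .bob s → MWins G k N .alice s) ∧
    (∀ (s : V → Option (Option (Fin k))) (x : V), unc s = N + 1 → s x = none →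
      MWins G k N .bob (Function.update s x (some none)) → MWins G k (N + 1) .bob s) := by
  induction N using Nat.strong_induction_on with
  | _ N ih =>
  have h1 : ∀ s : V → Option (Option (Fin k)), unc s = N →
      MWins G k N .bob s → MWins G k N .alice s := by
    intro s hs h
    match N, ih, hs, h with
    | 0, _, _, h => rw [mWins_zero] at h ⊢; exact h
    | 1, _, hs, h =>
      obtain ⟨x, hx⟩ := exists_of_unc_pos s hs
      have h0 : MWins G k 0 .alice (Function.update s x (some none)) := h x hx
      rw [mWins_zero] at h0
      refine ⟨x, ⟨0, hk⟩, hx, ?_⟩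
      rw [mWins_zero]
      exact terminal_mono s x _ h0
    | m + 2, ih, hs, h =>
      obtain ⟨x, hx⟩ := exists_of_unc_pos s hs
      obtain ⟨y, c, hy, hw⟩ : MWins G k (m + 1) .alice (Function.update s x (some none)) := h x hx
      have hyx : y ≠ x := by
        rintro rfl
        simp at hy
      have hy' : s y = none := by simpa [hyx] using hy
      refine ⟨y, c, hy', ?_⟩
      have hu := unc_update s y hy' (some c)
      refine (ih m (by omega)).2 _ x (by omega) (by simpa [hyx.symm] using hx) ?_
      rw [Function.update_comm hyx]
      exact hw
  refine ⟨h1, ?_⟩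
  intro s x hs hx h z hz
  by_cases hzx : z = x
  · subst hzx
    refine h1 _ ?_ h
    have := unc_update s z hz none
    omega
  · have hz' : Function.update s x (some none) z = none := by simpa [hzx] using hz
    match N, ih, hs, h with
    | 0, _, hs, _ =>
      exfalso
      have e1 := unc_update s x hx none
      have e2 := unc_update _ z hz' none
      omega
    | 1, _, hs, h =>
      have h0 : MWins G k 0 .alice
        (Function.update (Function.update s x (some none)) z (some none)) := h z hz'
      rw [mWins_zero] at h0
      rw [Function.update_comm (Ne.symm hzx)] at h0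
      refine ⟨x, ⟨0, hk⟩, by simpa [Ne.symm hzx] using hx, ?_⟩
      rw [mWins_zero]
      exact terminal_mono _ x _ h0
    | m + 2, ih, hs, h =>
      obtain ⟨y, c, hy, hw⟩ : MWins G k (m + 1) .alice
        (Function.update (Function.update s x (some none)) z (some none)) := h z hz'
      have hyz : y ≠ z := by
        rintro rfl
        simp at hy
      have hyx : y ≠ x := by
        rintro rfl
        simp [hyz] at hy
      have hy' : s y = none := by simpa [hyx, hyz] using hy
      have hzy : Function.update s z (some none) y = none := by simpa [hyz] using hy'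
      refine ⟨y, c, hzy, ?_⟩
      have e1 := unc_update s z hz none
      have e2 := unc_update _ y hzy (some c)
      refine (ih m (by omega)).2 _ x (by omega) (by simpa [hyx.symm, Ne.symm hzx] using hx) ?_
      rw [Function.update_comm hyx, Function.update_comm hzx]
      exact hw

/-- From the domatic game with `k + 1` colours to the auxiliary game with `k` colours. The colour
`p` is the wasted one. -/
lemma mWins_of_aliceWins {k : ℕ} (hk : 0 < k) (p : Fin (k + 1)) (n : ℕ) :
    ∀ (X : Player) (s : V → Option (Fin (k + 1))) (m : V → Option (Option (Fin k))),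
      (∀ v, s v = none ↔ m v = none) →
      (∀ v c, s v = some (p.succAbove c) → m v = some (some c)) →
      AliceWins G (k + 1) n X s → MWins G k n X m := by
  induction n with
  | zero =>
    intro X s m _ h2 h
    rw [aliceWins_zero] at h
    rw [mWins_zero]
    intro c
    exact (h (p.succAbove c)).mono fun v hv => h2 v c hv
  | succ n ih =>
    intro X s m h1 h2 h
    cases X with
    | alice =>
      obtain ⟨v, c, hv, hw⟩ := h
      rcases Fin.eq_self_or_eq_succAbove p c with hc | ⟨c', hc⟩
      · refine ⟨v, ⟨0, hk⟩, (h1 v).1 hv, ih _ _ _ ?_ ?_ hw⟩
        · intro w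
          by_cases hwv : w = v
          · subst hwv; simp
          · simpa [hwv] using h1 w
        · intro w d hd
          by_cases hwv : w = v
          · subst hwv
            simp only [Function.update_self, Option.some.injEq] at hd
            exact absurd (hd.symm.trans hc) (Fin.succAbove_ne p d)
          · simp only [Function.update_of_ne hwv] at hd ⊢
            exact h2 w d hd
      · refine ⟨v, c', (h1 v).1 hv, ih _ _ _ ?_ ?_ hw⟩
        · intro w
          by_cases hwv : w = v
          · subst hwv; simp
          · simpa [hwv] using h1 w
        · intro w d hd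
          by_cases hwv : w = v
          · subst hwv
            simp only [Function.update_self, Option.some.injEq] at hd ⊢
            exact Fin.succAbove_right_injective (hc.symm.trans hd)
          · simp only [Function.update_of_ne hwv] at hd ⊢
            exact h2 w d hd
    | bob =>
      intro v hv
      refine ih _ _ _ ?_ ?_ (h v p ((h1 v).2 hv))
      · intro w
        by_cases hwv : w = v
        · subst hwv; simp
        · simpa [hwv] using h1 w
      · intro w d hd
        by_cases hwv : w = v
        · subst hwv
          simp only [Function.update_self, Option.some.injEq] at hd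
          exact absurd hd.symm (Fin.succAbove_ne p d)
        · simp only [Function.update_of_ne hwv] at hd ⊢
          exact h2 w d hd

/-- From the auxiliary game with `k` colours to the domatic game with `k` colours. -/
lemma aliceWins_of_mWins {k : ℕ} (n : ℕ) :
    ∀ (X : Player) (s : V → Option (Fin k)) (m : V → Option (Option (Fin k))),
      (∀ v, s v = none ↔ m v = none) →
      (∀ v c, m v = some (some c) → s v = some c) →
      MWins G k n X m → AliceWins G k n X s := by
  induction n with
  | zero =>
    intro X s m _ h2 h
    rw [mWins_zero] at h
    rw [aliceWins_zero]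
    intro c
    exact (h c).mono fun v hv => h2 v c hv
  | succ n ih =>
    intro X s m h1 h2 h
    cases X with
    | alice =>
      obtain ⟨v, c, hv, hw⟩ := h
      refine ⟨v, c, (h1 v).2 hv, ih _ _ _ ?_ ?_ hw⟩
      · intro w
        by_cases hwv : w = v
        · subst hwv; simp
        · simpa [hwv] using h1 w
      · intro w d hd
        by_cases hwv : w = v
        · subst hwv
          simpa using hd
        · simp only [Function.update_of_ne hwv] at hd ⊢
          exact h2 w d hd
    | bob =>
      intro v c hv
      refine ih _ _ _ ?_ ?_ (h v ((h1 v).1 hv))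
      · intro w
        by_cases hwv : w = v
        · subst hwv; simp
        · simpa [hwv] using h1 w
      · intro w d hd
        by_cases hwv : w = v
        · subst hwv
          simp at hd
        · simp only [Function.update_of_ne hwv] at hd ⊢
          exact h2 w d hd

/-- With one colour Alice always wins. -/
lemma aliceWins_one [Fintype V] (n : ℕ) :
    ∀ (X : Player) (s : V → Option (Fin 1)), unc s = n → AliceWins G 1 n X s := by
  induction n with
  | zero =>
    intro X s hs
    rw [aliceWins_zero]
    intro c v
    left
    unfold unc at hs
    rw [Fintype.card_eq_zero_iff] at hs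
    have hv : s v ≠ none := fun h => hs.false ⟨v, h⟩
    obtain ⟨d, hd⟩ := Option.ne_none_iff_exists'.1 hv
    show s v = some c
    rw [hd, Subsingleton.elim d c]
  | succ n ih =>
    intro X s hs
    cases X with
    | alice =>
      obtain ⟨x, hx⟩ := exists_of_unc_pos s hs
      refine ⟨x, 0, hx, ih _ _ ?_⟩
      have := unc_update s x hx (0 : Fin 1)
      omega
    | bob =>
      intro v c hv
      refine ih _ _ ?_
      have := unc_update s v hv c
      omega

/-- If Alice wins, then some complete colouring has all colour classes dominating. -/
lemma exists_final {k : ℕ} [Fintype V] (hk : 0 < k) (n : ℕ) :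
    ∀ (X : Player) (s : V → Option (Fin k)), unc s = n → AliceWins G k n X s →
      ∃ s' : V → Option (Fin k), ∀ c : Fin k, Dominating G {v | s' v = some c} := by
  induction n with
  | zero =>
    intro X s _ h
    rw [aliceWins_zero] at h
    exact ⟨s, h⟩
  | succ n ih =>
    intro X s hs h
    cases X with
    | alice =>
      obtain ⟨v, c, hv, hw⟩ := h
      refine ih _ _ ?_ hw
      have := unc_update s v hv c
      omega
    | bob =>
      obtain ⟨x, hx⟩ := exists_of_unc_pos s hs
      refine ih _ _ ?_ (h x ⟨0, hk⟩ hx)
      have := unc_update s x hx (⟨0, hk⟩ : Fin k)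
      omega

end

section
variable {V : Type u} [DecidableEq V] [Fintype V] {G : SimpleGraph V}

lemma unc_none {α : Type*} : unc (fun _ : V => (none : Option α)) = Fintype.card V := by
  unfold unc
  rw [Fintype.card_subtype]
  simp

lemma wins_le_card [Nonempty V] {k : ℕ} {X : Player} (h : WinsGame G k X) :
    k ≤ Fintype.card V := by
  rcases Nat.eq_zero_or_pos k with rfl | hk
  · exact Nat.zero_le _
  obtain ⟨s', hs'⟩ := exists_final hk _ X _ unc_none h
  obtain ⟨v0⟩ := ‹Nonempty V›
  have hex : ∀ c : Fin k, ∃ v, s' v = some c := by
    intro c
    rcases hs' c v0 with h | ⟨w, hw, _⟩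
    · exact ⟨v0, h⟩
    · exact ⟨w, hw⟩
  choose f hf using hex
  have hinj : Function.Injective f := by
    intro a b hab
    have := hf a
    rw [hab, hf b] at this
    exact (Option.some.inj this).symm
  simpa using Fintype.card_le_of_injective f hinj

/-- If Alice wins with `k + 1` colours when Bob starts, she wins with `k` colours when she
starts. -/
lemma bob_to_alice {k : ℕ} (hk : 0 < k) (h : WinsGame G (k + 1) .bob) : WinsGame G k .alice := by
  have h1 : MWins G k (Fintype.card V) .bob (fun _ : V => none) :=
    mWins_of_aliceWins hk (Fin.last k) _ _ (fun _ => none) _ (by simp) (by simp) h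
  have h2 := (no_zugzwang hk (Fintype.card V)).1 _ unc_none h1
  exact aliceWins_of_mWins _ _ _ (fun _ => none) (by simp) (by simp) h2

/-- If Alice wins with `k + 1` colours when she starts, she wins with `k` colours when Bob
starts. -/
lemma alice_to_bob [Nonempty V] {k : ℕ} (hk : 0 < k) (h : WinsGame G (k + 1) .alice) :
    WinsGame G k .bob := by
  obtain ⟨n, hn⟩ : ∃ n, Fintype.card V = n + 1 :=
    Nat.exists_eq_succ_of_ne_zero Fintype.card_ne_zero
  unfold WinsGame at h ⊢
  rw [hn] at h ⊢
  obtain ⟨x, p, _, hw⟩ := h
  have h1 : MWins G k n .bob (Function.update (fun _ : V => none) x (some none)) := by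
    refine mWins_of_aliceWins hk p _ _ _ _ ?_ ?_ hw
    · intro w
      by_cases hwx : w = x
      · subst hwx; simp
      · simp [hwx]
    · intro w d hd
      by_cases hwx : w = x
      · subst hwx
        simp only [Function.update_self, Option.some.injEq] at hd
        exact absurd hd.symm (Fin.succAbove_ne p d)
      · simp [hwx] at hd
  have h2 := (no_zugzwang hk n).2 _ x (by rw [unc_none, hn]) rfl h1
  exact aliceWins_of_mWins _ _ _ (fun _ => none) (by simp) (by simp) h2

lemma isGreatest_gammaG [Nonempty V] (X : Player) :
    IsGreatest {k | 1 ≤ k ∧ WinsGame G k X} (gammaG G X) := by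
  have hne : {k | 1 ≤ k ∧ WinsGame G k X}.Nonempty :=
    ⟨1, le_refl 1, aliceWins_one _ X _ unc_none⟩
  have hbdd : BddAbove {k | 1 ≤ k ∧ WinsGame G k X} :=
    ⟨Fintype.card V, fun k hk => wins_le_card hk.2⟩
  exact ⟨Nat.sSup_mem hne hbdd, fun k hk => le_csSup hbdd hk⟩

end

/-- **Full answer to Q1**: for every finite nonempty graph `G`, the domatic game numbers (which are
the largest `k ≥ 1` such that Alice wins with `k` colours) satisfy
`|γ_g(G, A) - γ_g(G, B)| ≤ 1`. -/
theorem result (V : Type u) [Fintype V] [DecidableEq V] [Nonempty V] (G : SimpleGraph V) :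
    (∀ X, IsGreatest {k | 1 ≤ k ∧ WinsGame G k X} (gammaG G X)) ∧
      |(gammaG G .alice : ℤ) - (gammaG G .bob : ℤ)| ≤ 1 := by
  refine ⟨isGreatest_gammaG, ?_⟩
  have hA := isGreatest_gammaG (G := G) .alice
  have hB := isGreatest_gammaG (G := G) .bob
  have h1 : gammaG G .bob ≤ gammaG G .alice + 1 := by
    rcases Nat.lt_or_ge 1 (gammaG G .bob) with hlt | hle
    · obtain ⟨k, hk⟩ : ∃ k, gammaG G .bob = k + 1 := ⟨gammaG G .bob - 1, by omega⟩
      have hw := hB.1.2
      rw [hk] at hw
      have := hA.2 ⟨by omega, bob_to_alice (by omega) hw⟩
      omega
    · omega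
  have h2 : gammaG G .alice ≤ gammaG G .bob + 1 := by
    rcases Nat.lt_or_ge 1 (gammaG G .alice) with hlt | hle
    · obtain ⟨k, hk⟩ : ∃ k, gammaG G .alice = k + 1 := ⟨gammaG G .alice - 1, by omega⟩
      have hw := hA.1.2
      rw [hk] at hw
      have := hB.2 ⟨by omega, alice_to_bob (by omega) hw⟩
      omega
    · omega
  rw [abs_le]
  constructor <;> omega

end Pool.Agent.Results.MP_d2c770_co.FirstPlayer
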